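import Pool.Agent.Work.MP_d2a4bb_nt.Fin.Defs
import Pool.Agent.Work.MP_d2a4bb_nt.CV.Stmts

/-!
# The definitions of the final statements and those of the blocks NC and CV
-/

set_option autoImplicit false

open UpperHalfPlane MeasureTheory Matrix Set

namespace Pool.Agent.HoloQUE

theorem plenty_iff (P : Set ℕ) (N₀ : ℝ → ℕ) : Plenty P N₀ ↔ HQ.Plentiful P N₀ := by
  have h : ∀ N : ℕ, (P ∩ Ioc N (3 * N)).ncard =
      (@Finset.filter ℕ (· ∈ P) (fun _ => Classical.propDecidable _) (Finset.Ioc N (3 * N))).card := by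
    intro N
    classical
    rw [← Set.ncard_coe_finset]
    congr 1
    ext p
    simp only [Set.mem_inter_iff, Set.mem_Ioc, Finset.coe_filter, Finset.mem_Ioc,
      Set.mem_setOf_eq]
    tauto
  constructor
  · intro hP ε hε N hN
    rw [h N]
    exact hP ε hε N hN
  · intro hP ε hε N hN
    have h2 := hP ε hε N hN
    rw [h N] at h2
    exact h2

theorem goodSet_iff (Q : HQ.QuatOrder) (P : Set ℕ) (N₀ : ℝ → ℕ) :
    GoodSet Q P N₀ ↔ Q.GoodPrimes P N₀ := by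
  unfold GoodSet HQ.QuatOrder.GoodPrimes
  rw [plenty_iff]

theorem mu_eq (k : ℕ) (f : ℍ → ℂ) : mu k f = HQ.mu k f := rfl

theorem heckeP_iff (Q : HQ.QuatOrder) (P : Set ℕ) (k : ℕ) (f : ℍ → ℂ) :
    HeckeP Q P k f ↔ Q.IsHeckeForm P k f :=
  ⟨fun h => ⟨h.even, h.form, h.eigen, h.norm⟩, fun h => ⟨h.even, h.form, h.eigen, h.norm⟩⟩

theorem weakLim_iff (k : ℕ → ℕ) (f : ℕ → ℍ → ℂ) (ν : Measure ℍ) :
    WeakLim k f ν ↔ HQ.IsWeakLimit k f ν := Iff.rfl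

theorem isR6_iff (x : Matrix (Fin 2) (Fin 2) ℝ) : IsR6 x ↔ HQ.IsDisc6 x := by
  have h : ∀ a b c d : ℤ, q6 (a / 2) (b / 2) (c / 2) (d / 2) =
      !![((a : ℝ) + c * √3) / 2, (-b + d * √3) / 2; (b + d * √3) / 2, (a - c * √3) / 2] := by
    intro a b c d
    unfold q6
    ext i j
    fin_cases i <;> fin_cases j <;> simp <;> ring
  constructor
  · rintro ⟨a, b, c, d, h1, h2, h3, h4⟩
    exact ⟨a, b, c, d, h1, h2, h3, h4.trans (h a b c d)⟩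
  · rintro ⟨a, b, c, d, h1, h2, h3, h4⟩
    exact ⟨a, b, c, d, h1, h2, h3, h4.trans (h a b c d).symm⟩

theorem arc_iff (α M : ℝ) (γ : ℝ → ℍ) (γ' : ℝ → ℂ) : Arc α M γ γ' ↔ HQ.IsArc α M γ γ' :=
  ⟨fun h => ⟨h.hd, h.lo, h.hi, h.hol, h.pos⟩,
    fun h => ⟨h.hasDeriv, h.lower, h.upper, h.holder, h.pos⟩⟩

theorem isHArc_iff (γ : ℝ → ℍ) : IsHArc γ ↔ HQ.IsHolderArc γ := Iff.rfl

end Pool.Agent.HoloQUE
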