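import Pool.Agent.Work.MP_d2a4bb_nt.QE.Defs

/-!
# Non-concentration of holomorphic Hecke forms on compact arithmetic surfaces (MP_d2a4bb_nt)

Definitions used in the final statements (with those of `QE/Defs.lean`).
-/

set_option autoImplicit false

open UpperHalfPlane MeasureTheory Matrix Set

namespace HQ

/-- The measure `μ_f = y ^ k |f(z)| ^ 2 dμ(z)` on the upper half-plane (`dμ = dx dy / y ^ 2` is
the `volume` of Mathlib). -/
noncomputable def mu (k : ℕ) (f : ℍ → ℂ) : Measure ℍ :=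
  volume.withDensity fun z => ENNReal.ofReal (‖f z‖ ^ 2 * z.im ^ k)

/-- For all `ε > 0` and all `N ≥ N₀ ε` there are at least `N ^ (1 - ε)` elements of `P` in the interval
`(N, 3 N]`. -/
def Plentiful (P : Set ℕ) (N₀ : ℝ → ℕ) : Prop :=
  ∀ ε : ℝ, 0 < ε → ∀ N : ℕ, N₀ ε ≤ N → (N : ℝ) ^ (1 - ε) ≤ ((P ∩ Ioc N (3 * N)).ncard : ℝ)

/-- `P` is a plentiful set of good primes of the order `O`: for `p ∈ P` the ring `O / p O` is
isomorphic to `M₂(𝔽_p)` and there are exactly `p + 1` classes `Γ x`, `x ∈ O`, `nrd x = p`. (For maximal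
orders all primes at which the algebra splits have these properties, by Eichler's theorem.) -/
def QuatOrder.GoodPrimes (Q : QuatOrder) (P : Set ℕ) (N₀ : ℝ → ℕ) : Prop :=
  Plentiful P N₀ ∧ ∀ p ∈ P, p.Prime ∧ Q.Good p ∧ Q.index p = p + 1

/-- A holomorphic Hecke form of even weight `k` on `X = Γ \ ℍ` (an eigenfunction of `T_p` for `p ∈ P`),
normalised such that `μ_f(X) = 1`. -/
structure QuatOrder.IsHeckeForm (Q : QuatOrder) (P : Set ℕ) (k : ℕ) (f : ℍ → ℂ) : Prop where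
  even : Even k
  form : Q.IsForm k f
  eigen : ∀ p ∈ P, Q.IsEigen p k f
  norm : ∃ F : Set ℍ, Q.IsFund F ∧ mu k f F = 1

/-- `ν` is a weak-* limit of the measures `μ_(f_j)`, tested against the continuous functions with
compact support on the upper half-plane. -/
def IsWeakLimit (k : ℕ → ℕ) (f : ℕ → ℍ → ℂ) (ν : Measure ℍ) : Prop :=
  IsFiniteMeasureOnCompacts ν ∧ ∀ φ : ℍ → ℝ, Continuous φ → HasCompactSupport φ →
    Filter.Tendsto (fun j => ∫ z, φ z ∂(mu (k j) (f j))) Filter.atTop (nhds (∫ z, φ z ∂ν))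

/-- The members `(a + b i + c j + d i j) / 2` of the maximal order of discriminant `6`, where
`i² = -1`, `j² = 3`, `i j = - j i`, and `a, b, c, d` are integers of the same parity, as real matrices:
`i` has the rows `(0, -1)` and `(1, 0)`, `j` has the rows `(√3, 0)` and `(0, -√3)`. -/
def IsDisc6 (x : Matrix (Fin 2) (Fin 2) ℝ) : Prop :=
  ∃ a b c d : ℤ, (a - b) % 2 = 0 ∧ (a - c) % 2 = 0 ∧ (a - d) % 2 = 0 ∧
    x = !![(a + c * √3) / 2, (-b + d * √3) / 2; (b + d * √3) / 2, (a - c * √3) / 2]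

/-- `γ : [0, 1] → ℍ` is a `C^{1,α}` arc with bounds `M`: it has the derivative `γ'`, of modulus between
`1 / M` and `M`, which is Hölder continuous with exponent `α` and constant `M`, and the arc is in the
ball of radius `M` about `i`. -/
structure IsArc (α M : ℝ) (γ : ℝ → ℍ) (γ' : ℝ → ℂ) : Prop where
  hasDeriv : ∀ t ∈ Icc (0 : ℝ) 1, HasDerivWithinAt (fun s => ((γ s : ℍ) : ℂ)) (γ' t) (Icc 0 1) t
  lower : ∀ t ∈ Icc (0 : ℝ) 1, 1 / M ≤ ‖γ' t‖
  upper : ∀ t ∈ Icc (0 : ℝ) 1, ‖γ' t‖ ≤ M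
  holder : ∀ s ∈ Icc (0 : ℝ) 1, ∀ t ∈ Icc (0 : ℝ) 1, ‖γ' s - γ' t‖ ≤ M * |s - t| ^ α
  pos : ∀ t ∈ Icc (0 : ℝ) 1, dist (γ t) I ≤ M

/-- `γ : [0, 1] → ℍ` is a `C^{1,α}` arc for some `α > 1 / 2`: it is differentiable on `[0, 1]`, its
derivative has no zero and is Hölder continuous with exponent `α`. -/
def IsHolderArc (γ : ℝ → ℍ) : Prop :=
  ∃ (α H : ℝ) (γ' : ℝ → ℂ), 1 / 2 < α ∧
    (∀ t ∈ Icc (0 : ℝ) 1, HasDerivWithinAt (fun s => ((γ s : ℍ) : ℂ)) (γ' t) (Icc 0 1) t) ∧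
    (∀ t ∈ Icc (0 : ℝ) 1, γ' t ≠ 0) ∧
    ∀ s ∈ Icc (0 : ℝ) 1, ∀ t ∈ Icc (0 : ℝ) 1, ‖γ' s - γ' t‖ ≤ H * |s - t| ^ α

end HQ
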